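import Mathlib
import Pool.Agent.H514.FR.Fin2
import Pool.Agent.H514.FR.Cyc1
import Pool.Agent.H514.FR.Cyc2

/-!
# The 2-power Selmer groups of the elliptic curves over `ℚ` with a cyclic 4-isogeny

All elliptic curves `E` over `ℚ` with a rational cyclic subgroup of order four (the rational points
of `X₀(4)` and their twists), ordered by height. The 2-rank of `Ш(E/ℚ)` is unbounded: it is close to
`(3 / 2) log log H` for almost all curves of height at most `H`. But the rank of `E` and the
4-rank of `Ш(E/ℚ)` are bounded in the mean: the average of `(2 ^ rank * #(2 Ш[4])) ^ 2` is bounded.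
(In the language of the problem: for the sequence `0 → E(ℚ) ⊗ ℚ₂/ℤ₂ → Sel → Ш[2^∞] → 0` the
number `2 ^ rank * #(2 Ш[4])` is the order of `2 Sel[4]`.)

The Tate-Shafarevich group `ShaQ W` is the one of the problem: classes of continuous cocycles of
`Gal(ℚ̄/ℚ)` with values in `W(ℚ̄)` that become coboundaries over all the completions `ℚ_p` and `ℝ`
(file `Pool.Graph.R_pool_sql_team_seeded_f72693b1.W262.SH.Def`); `Sha2 W` is its 2-torsion,
`Pt W QB` the group of the points over `QB = ℚ̄`, with the action `gact W σ` of `σ ∈ GQ = Gal(ℚ̄/ℚ)`.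

Outline. The curve is `y² = x (x² + 3 e x + s²)` up to a translation, and its quotient by `(0, 0)` is
`V : y² = x (x - 3 e - 2 s) (x - 3 e + 2 s)`, which has full rational 2-torsion. The isogenies
`φ : E → V`, `φ' : V → E` have the composition 2, so that `2 Ш(E)[4] = φ' (φ Ш(E)[4])`, where the group
`φ' (M)`, `M = φ Ш(E)[4]`, is killed by 2, hence of order at most `#(M / 2 M) = #M[2] ≤ #Ш(V)[2]`. The
second moment of the 2-Selmer groups of the curves `V` is bounded. The 2-rank of `Ш(E)` is computed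
by descent by the two isogenies, as for `MP_e23604_nt.IsogenyClassLaw`.
-/

set_option autoImplicit false

namespace Pool.Agent.Results.MP_a3f657_nt.FourRankCyclicFourIsogeny

open Finset Filter

open Pool.Agent.W262.SH (Sha2 ShaQ Pt QB GQ gact)

/-- the curve `y² = x³ + A x + B` over `ℚ` -/
def E (A B : ℤ) : WeierstrassCurve ℚ := ⟨0, 0, 0, (A : ℚ), (B : ℚ)⟩

/-- `W` has a rational cyclic subgroup of order four: there is a point `P` of order four over `ℚ̄`
such that the group generated by `P` is stable under the Galois group (its elements of order four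
are `P` and `-P`) -/
def HasCyclicFour (W : WeierstrassCurve ℚ) : Prop :=
  ∃ P : Pt W QB, addOrderOf P = 4 ∧ ∀ σ : GQ, gact W σ P = P ∨ gact W σ P = -P

open Classical in
/-- The pairs `(A, B)` of integers such that `4 A³ + 27 B² ≠ 0`, there is no prime `p` with
`p⁴ ∣ A` and `p⁶ ∣ B`, the height `max (4 |A|³) (27 B²)` is at most `H`, and the curve
`y² = x³ + A x + B` has a rational cyclic subgroup of order four. (The bounds `|A|, |B| ≤ H` follow
from the bound of the height. Every elliptic curve over `ℚ` is isomorphic to `E A B` for exactly one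
pair with the first two properties.) -/
noncomputable def Fam (H : ℕ) : Finset (ℤ × ℤ) :=
  ((Icc (-(H : ℤ)) H) ×ˢ (Icc (-(H : ℤ)) H)).filter (fun c : ℤ × ℤ =>
    4 * c.1 ^ 3 + 27 * c.2 ^ 2 ≠ 0 ∧ 4 * |c.1| ^ 3 ≤ H ∧ 27 * c.2 ^ 2 ≤ H ∧
    (∀ p : ℕ, p.Prime → ¬ ((p : ℤ) ^ 4 ∣ c.1 ∧ (p : ℤ) ^ 6 ∣ c.2)) ∧ HasCyclicFour (E c.1 c.2))

/-- the subgroup `2 S[4]` of the abelian group `S`, whose order is `2 ^ (4-rank of S)` -/
def TwoFour (S : Type) [AddCommGroup S] : Set S := {x | ∃ y : S, (4 : ℕ) • y = 0 ∧ x = (2 : ℕ) • y}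

lemma Fam_eq (H : ℕ) : Fam H = Pool.Agent.H514.FR.X4 H := rfl

/-- **Theorem.** Let `E` run through the elliptic curves over `ℚ` with a rational cyclic subgroup of
order four, ordered by height.
1. The number of the curves of height at most `H` tends to infinity.
2. `Ш(E/ℚ)[4]` is finite.
3. The average of `(2 ^ rank E(ℚ) * #(2 Ш(E/ℚ)[4])) ^ 2` over the curves of height at most `H` is
bounded.
4. The average of `(log₂ #Ш(E/ℚ)[2] - (3 / 2) log log H) ^ 2` is at most `C log log H`.
5. For every `K` the proportion of the curves with `#Ш(E/ℚ)[2] ≤ K` tends to zero. -/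
theorem result :
    Tendsto (fun H : ℕ => (Fam H).card) atTop atTop ∧
    (∀ H : ℕ, ∀ c ∈ Fam H, {x : ShaQ (E c.1 c.2) | (4 : ℕ) • x = 0}.Finite) ∧
    (∃ C : ℝ, ∀ H : ℕ,
      ∑ c ∈ Fam H, ((2 : ℝ) ^ Module.finrank ℤ (E c.1 c.2).toAffine.Point *
        (TwoFour (ShaQ (E c.1 c.2))).ncard) ^ 2 ≤ C * (Fam H).card) ∧
    (∃ (C : ℝ) (H₀ : ℕ), ∀ H : ℕ, H₀ ≤ H →
      ∑ c ∈ Fam H, (Real.logb 2 (Nat.card (Sha2 (E c.1 c.2))) -
        3 / 2 * Real.log (Real.log H)) ^ 2 ≤ C * Real.log (Real.log H) * (Fam H).card) ∧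
    ∀ K : ℕ, Tendsto (fun H : ℕ =>
      (((Fam H).filter (fun c => Nat.card (Sha2 (E c.1 c.2)) ≤ K)).card : ℝ) / (Fam H).card)
      atTop (nhds 0) := by
  classical
  have hstr : Pool.Agent.H514.FR.STR := fun A B h => Pool.Agent.H514.FR.cyc_struct h
  have hlow : Pool.Agent.H514.FR.LOW4 :=
    Pool.Agent.H514.FR.low4 (fun e s => Pool.Agent.H514.FR.cyc_conv)
  refine ⟨Pool.Agent.H514.FR.card_tendsto hlow, ?_, Pool.Agent.H514.FR.four_moment hstr hlow,
    Pool.Agent.H514.FR.two_turan hstr hlow, fun K => ?_⟩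
  · intro H c hc
    obtain ⟨t, h1, h2, h3, h4, -⟩ := Pool.Agent.H514.FR.par hstr hc
    exact Pool.Agent.H514.FR.sha4_fin h1 h2 h3 h4
  · exact (Pool.Agent.H514.FR.small_zero hstr hlow K).congr fun H => by
      congr 2

end Pool.Agent.Results.MP_a3f657_nt.FourRankCyclicFourIsogeny
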