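import Pool.Agent.H456.PS.Out9

/-!
# The law of `Sel_{2^∞}[2]` in height ordered families of elliptic curves over `F_q(t)` of positive density

`Eqn F d` (equations with `deg aᵢ ≤ i d`) and `cls` (isomorphism class over `F(t)`) are in `Pool.Agent.H456.RN.Defs`;
`SelInf` and `SelInfTwo` (the `2^∞`-Selmer group and its elements killed by two), `ShaTwoTrivial` (the 2-primary part of the
Tate-Shafarevich group is trivial), `law` and `share` (proportion) in `Pool.Agent.H456.Pub.Law`, `Pool.Agent.H456.Pub.Law2`,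
`Pool.Agent.H456.Pub.Sha` and `Pool.Agent.H456.Pub.Def`; `Starred` in `Pool.Agent.H456.Pub.Star` and `starUnion` in
`Pool.Agent.H456.Pub.Star2`.
-/

open Polynomial Filter Pool.Agent.H456.EC
open Pool.Agent.H456.Pub (SelInf SelInfTwo ShaTwoTrivial law share starUnion)

namespace Pool.Agent.Results.MP_a3f657_nt.LawInStarredFamilies

/-- Let `F` be a finite field of odd characteristic, `K = F(t)` and `ε > 0`. There is `k₀` such that for every nonempty set
`T` of integers `k ≥ k₀` the elliptic curves over `K` whose starred fibres at the finite places have total degree `2 k` for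
some `k` in `T` have positive lower density among all elliptic curves over `K` ordered by height, and for all sufficiently
large `d`, among those of height at most `q ^ d`: for every `j` the proportion of the `A` such that `Sel_{2^∞}(A)[2]` has
order `2 ^ j` differs by at most `ε` from `∏_{i ≥ 0} (1 + 2⁻ⁱ)⁻¹ ∏_{1 ≤ i ≤ j} 2 / (2ⁱ - 1)`; and the proportion of the `A`
such that `A(K)` is finite, `Sel_{2^∞}(A)` is trivial and the 2-primary part of the Tate-Shafarevich group is trivial
differs by at most `ε` from `∏_{i ≥ 0} (1 + 2⁻ⁱ)⁻¹`. -/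
theorem result (F : Type) [Field F] [Fintype F] (h2 : (2 : F) ≠ 0) (ε : ℝ) (hε : 0 < ε) :
    ∃ k₀ : ℕ, ∀ T : Set ℕ, T.Nonempty → (∀ k ∈ T, k₀ ≤ k) →
      (∃ δ : ℝ, 0 < δ ∧ ∀ᶠ d : ℕ in atTop, δ * ((cls '' Eqn F d).ncard : ℝ) ≤ ((starUnion F T d).ncard : ℝ)) ∧
      ∀ᶠ d : ℕ in atTop,
        (∀ j : ℕ, |share (starUnion F T d) (fun κ => Nat.card (SelInfTwo κ.out) = 2 ^ j) - law j| ≤ ε) ∧
        |share (starUnion F T d) (fun κ => Finite κ.out.toAffine.Point ∧ Nat.card (SelInf κ.out) = 1 ∧
          ShaTwoTrivial κ.out) - law 0| ≤ ε := by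
  obtain ⟨k₀, h⟩ := Pool.Agent.H456.PS.union_sha (F := F) h2 ε hε
  exact ⟨k₀, fun T hT hk => ⟨(h T hT hk).1, (h T hT hk).2.mono fun d hd => ⟨hd.2.1, hd.2.2⟩⟩⟩

end Pool.Agent.Results.MP_a3f657_nt.LawInStarredFamilies
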