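import Pool.Agent.H456.Pub.Out

/-!
# The average of `#Sel_{2^∞}(A)[2]` over the elliptic curves over `F(t)`, `F` a finite field of odd characteristic

`Eqn F d` (equations with `deg aᵢ ≤ i d`), `cls` (isomorphism class over `F(t)`) and `rev` (the equation in the coordinate
`1/t`) are in `Pool.Agent.H456.RN.Defs`; `IsCongr` and `Least` (families defined by finitely many congruence conditions) are
in `Pool.Agent.H456.BQ.XDef`; `Quot (SameClass E (Prim E 2))` is the `2^∞`-Selmer group (Galois cocycles modulo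
coboundaries) and `Killed` its 2-torsion, see `Pool.Agent.H456.Pub.Def`.
-/

open Polynomial Filter Pool.Agent.H456.EC
open Pool.Agent.H456.BQ (IsCongr)
open Pool.Agent.H456.Pub (SameClass Prim Killed)
open scoped Topology

namespace Pool.Agent.Results.MP_a3f657_nt.TwoPrimarySelmerAverage

/-- the elements killed by two of the `2^∞`-Selmer group of `E` -/
abbrev SelTwo {F : Type} [Field F] (E : WeierstrassCurve (RatFunc F)) : Type :=
  {x : Quot (SameClass E (Prim E 2)) // Killed E (Prim E 2) 2 x}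

/-- Let `F` be a finite field of odd characteristic with `q` elements and `K = F(t)`. Let `U` be a family of isomorphism
classes of elliptic curves over `K` which is defined by finitely many congruence conditions on the coefficients of an
equation of least height, with at least one member (for instance the family of all elliptic curves). Then `U` has positive
lower density for the height, `Sel_{2^∞}(A)[2]` is finite for all `A ∈ U`, its average order over the members of `U` of
height at most `q^d` tends to `3` as `d` tends to infinity, and for every `m ≥ 2` the upper density in `U` of the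
`A ∈ U` with `#Sel_{2^∞}(A)[2] ≥ m` is at most `2 / (m - 1)`. -/
theorem result (F : Type) [Field F] [Fintype F] (h2 : (2 : F) ≠ 0) :
    (∀ d : ℕ, (cls '' Eqn F d).Finite ∧ ∀ κ ∈ cls '' Eqn F d, Finite (SelTwo κ.out)) ∧
    ∀ U : Set (MulAction.orbitRel.Quotient (WeierstrassCurve.VariableChange (RatFunc F)) (WeierstrassCurve (RatFunc F))),
      (U = Set.univ ∨ IsCongr F U ∧ ∃ d, (cls '' Eqn F d ∩ U).Nonempty) →
      (∃ δ : ℝ, 0 < δ ∧ ∀ᶠ d : ℕ in atTop, δ * ((cls '' Eqn F d).ncard : ℝ) ≤ ((cls '' Eqn F d ∩ U).ncard : ℝ)) ∧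
      Tendsto (fun d : ℕ => (∑ᶠ κ ∈ cls '' Eqn F d ∩ U, (Nat.card (SelTwo κ.out) : ℝ)) / ((cls '' Eqn F d ∩ U).ncard : ℝ))
        atTop (𝓝 3) ∧
      ∀ m : ℕ, 2 ≤ m → ∀ ε : ℝ, 0 < ε → ∀ᶠ d : ℕ in atTop,
        (({κ | κ ∈ cls '' Eqn F d ∩ U ∧ m ≤ Nat.card (SelTwo κ.out)}).ncard : ℝ) ≤
          (2 / (m - 1) + ε) * ((cls '' Eqn F d ∩ U).ncard : ℝ) := by
  refine ⟨fun d => ⟨Pool.Agent.H456.BQ.finite_cls d, fun κ hκ =>
    (Pool.Agent.H456.Pub.card_prim κ.out 2 2).2.2 (Pool.Agent.H456.Coh.fin_sI h2 hκ).1⟩, fun U hU => ?_⟩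
  have hU' : IsCongr F U ∧ ∃ d, (cls '' Eqn F d ∩ U).Nonempty := by
    rcases hU with rfl | hU
    · exact ⟨⟨1, 0, one_ne_zero, fun _ _ _ _ _ _ _ _ => by simp⟩,
        ⟨1, by rw [Set.inter_univ]; exact Pool.Agent.H456.BQ.ne_cls h2 le_rfl⟩⟩
    · exact hU
  obtain ⟨hU, hne⟩ := hU'
  refine ⟨(Pool.Agent.H456.Coh.fam_lim h2 hU hne).1, ?_, fun m hm ε hε => ?_⟩
  · have h := (Pool.Agent.H456.Coh.fam_lim h2 hU hne).2.2
    simp only [Pool.Agent.H456.Pub.sI_card] at h
    exact h
  · have h := Pool.Agent.H456.Coh.tail_sI h2 hU hne m hm ε hε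
    simp only [Pool.Agent.H456.Pub.sI_card] at h
    exact h

end Pool.Agent.Results.MP_a3f657_nt.TwoPrimarySelmerAverage
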